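import Pool.Agent.Q81.JN.Main

/-!
# Delta-neighbourhoods of Janowski convex functions (MP_f39c46_an, Q1)

For every pair `-1 ≤ B < A ≤ 1`, the number `delta A B` is the largest `δ ≥ 0` such that
`N_δ(f) ⊆ St` for all `f ∈ K[A,B]`. In particular both assertions of the question hold for all pairs,
including those which satisfy neither (a) nor (b).

Idea of the proof. Let `J = f/(z f')`, `r = |z|`, `m(r) = k'(-r)`, `M(r) = -k(-r)` for the extremal
function `k`, and `J* = M/(r m)`. Three minimum principle arguments on discs, which only use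
`Re (1 + z f''/f') ≥ (1 - A r)/(1 - B r)`, give `|f'| ≥ m`, `Re J ≥ M/(r |f'|)` (a bound for the
support function of the image of `|z| < r`) and `|J - 1/2| ≤ J* - 1/2`. They imply
`|z f' - i t f| ≥ |z| m(r) √(1 + t²/4)` for all real `t`, which is exactly what is needed for
`N_δ(f) ⊆ St` with `δ = m(1) = delta A B`, since `|k - i t| ≤ k √(1 + t²/4)` for `k ≥ 2`.
-/

set_option autoImplicit false

open Complex Metric Set

namespace Pool.Agent.Results.MP_f39c46_an.SharpNeighbourhoods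

/-- The class `A`: analytic on the unit disc, `f(0) = 0`, `f'(0) = 1`. -/
structure InA (f : ℂ → ℂ) : Prop where
  diff : DifferentiableOn ℂ f (ball 0 1)
  map_zero : f 0 = 0
  deriv_zero : deriv f 0 = 1

/-- The `n`-th Taylor coefficient at `0`. -/
noncomputable def coef (f : ℂ → ℂ) (n : ℕ) : ℂ := iteratedDeriv n f 0 / (n.factorial : ℂ)

/-- The `δ`-neighbourhood `N_δ(f)`: all `g` in the class `A` with `∑_{k ≥ 2} k |a_k - b_k| ≤ δ`
(all terms are nonnegative; the condition is that every partial sum is at most `δ`). -/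
def Nbd (δ : ℝ) (f : ℂ → ℂ) : Set (ℂ → ℂ) :=
  {g | InA g ∧ ∀ N : ℕ, ∑ k ∈ Finset.Icc 2 N, (k : ℝ) * ‖coef f k - coef g k‖ ≤ δ}

/-- Normalised starlike functions: univalent, with image starlike with respect to `0`. -/
structure InSt (g : ℂ → ℂ) : Prop where
  inA : InA g
  univalent : InjOn g (ball 0 1)
  starlike : StarConvex ℝ (0 : ℂ) (g '' ball 0 1)

/-- Subordination `F ≺ G`: `F = G ∘ ω` on the disc, `ω` an analytic self-map of the disc fixing
`0`. -/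
def Subord (F G : ℂ → ℂ) : Prop :=
  ∃ ω : ℂ → ℂ, DifferentiableOn ℂ ω (ball 0 1) ∧ MapsTo ω (ball 0 1) (ball 0 1) ∧ ω 0 = 0 ∧
    ∀ z ∈ ball (0 : ℂ) 1, F z = G (ω z)

/-- The Janowski class `K[A,B]`. -/
structure InK (A B : ℝ) (f : ℂ → ℂ) : Prop where
  inA : InA f
  univalent : InjOn f (ball 0 1)
  sub : Subord (fun z => 1 + z * deriv (deriv f) z / deriv f z)
    (fun z => (1 + (A : ℂ) * z) / (1 + (B : ℂ) * z))

/-- `δ(A,B)`. -/
noncomputable def delta (A B : ℝ) : ℝ :=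
  if B = 0 then Real.exp (-A) else (1 - B) ^ ((A - B) / B)

theorem inA_iff (f : ℂ → ℂ) : Pool.Agent.Q81.JN.InA f ↔ InA f :=
  ⟨fun h => ⟨h.1, h.2, h.3⟩, fun h => ⟨h.1, h.2, h.3⟩⟩

theorem inSt_iff (f : ℂ → ℂ) : Pool.Agent.Q81.JN.InSt f ↔ InSt f :=
  ⟨fun h => ⟨(inA_iff f).1 h.1, h.2, h.3⟩, fun h => ⟨(inA_iff f).2 h.1, h.2, h.3⟩⟩

theorem inK_iff (A B : ℝ) (f : ℂ → ℂ) : Pool.Agent.Q81.JN.InK A B f ↔ InK A B f :=
  ⟨fun h => ⟨(inA_iff f).1 h.1, h.2, h.3⟩, fun h => ⟨(inA_iff f).2 h.1, h.2, h.3⟩⟩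

/-- For all `-1 ≤ B < A ≤ 1`, `delta A B` is the largest `δ ≥ 0` with `N_δ(f) ⊆ St` for every
`f ∈ K[A,B]`. -/
theorem result (A B : ℝ) (hB : -1 ≤ B) (hAB : B < A) (hA : A ≤ 1) :
    IsGreatest {δ : ℝ | 0 ≤ δ ∧ ∀ f, InK A B f → Nbd δ f ⊆ {g | InSt g}} (delta A B) := by
  have h := Pool.Agent.Q81.JN.main A B hB hAB hA
  have e : {δ : ℝ | 0 ≤ δ ∧ ∀ f, InK A B f → Nbd δ f ⊆ {g | InSt g}} =
      {δ : ℝ | 0 ≤ δ ∧ ∀ f, Pool.Agent.Q81.JN.InK A B f →
        ∀ g ∈ Pool.Agent.Q81.JN.Nbd δ f, Pool.Agent.Q81.JN.InSt g} := by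
    ext δ
    constructor
    · rintro ⟨h1, h2⟩
      refine ⟨h1, fun f hf g hg => ?_⟩
      exact (inSt_iff g).2 (h2 f ((inK_iff A B f).1 hf) ⟨(inA_iff g).1 hg.1, hg.2⟩)
    · rintro ⟨h1, h2⟩
      refine ⟨h1, fun f hf g hg => ?_⟩
      exact (inSt_iff g).1 (h2 f ((inK_iff A B f).2 hf) g ⟨(inA_iff g).2 hg.1, hg.2⟩)
  rw [e]
  exact h

end Pool.Agent.Results.MP_f39c46_an.SharpNeighbourhoods
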